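import Pool.Agent.Helper185.BlkFinal
import Pool.Agent.Helper292.ForceCH

/-!
Split(Ω, T) without Split(T, Γ), from the continuum hypothesis.
-/

namespace Pool.Agent.Results.MP_7b70e8_gt.ConsistentlyNotImplied

open Pool.Agent.Helper185.Sel

theorem under_ch : Cardinal.aleph 1 = Cardinal.continuum.{0} →
    ∃ X : Set ℝ, X.Nonempty ∧ SplitP (OmegaOf (OpenFam X)) (TauOf (OpenFam X)) ∧
      ¬ SplitP (TauOf (OpenFam X)) (GammaOf (OpenFam X)) ∧
      ¬ Choose (TauOf (OpenFam X)) (GammaOf (OpenFam X)) := by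
  intro hCH
  obtain ⟨X, h0, h1, h2⟩ := Pool.Agent.Helper185.Blk.exists_real hCH
  exact ⟨X, h0, h1, fun h => h2 (Pool.Agent.Helper185.Blk.split_choose h), h2⟩

theorem result :
    (∃ (P : Type) (_ : Preorder P), Nonempty P ∧ ∀ p : P,
      p ∈ Pool.Agent.Helper292.ForceCH.OmegaOnePreserved P ∧
      p ∈ Pool.Agent.Helper292.ForceCH.CHHolds P) ∧
    (Cardinal.aleph 1 = Cardinal.continuum.{0} →
    ∃ X : Set ℝ, X.Nonempty ∧ SplitP (OmegaOf (OpenFam X)) (TauOf (OpenFam X)) ∧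
      ¬ SplitP (TauOf (OpenFam X)) (GammaOf (OpenFam X)) ∧
      ¬ Choose (TauOf (OpenFam X)) (GammaOf (OpenFam X))) := by
  refine ⟨?_, under_ch⟩
  obtain ⟨P, i, h1, h2⟩ := Pool.Agent.Helper292.ForceCH.exists_forcing
  exact ⟨P, i, h1, fun p => ⟨(h2 p).1, (h2 p).2.2⟩⟩

end Pool.Agent.Results.MP_7b70e8_gt.ConsistentlyNotImplied
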