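import Pool.Agent.Helper185.BlkFinal

/-!
If Split(Ω, T) implies Split(T, Γ) for all nonempty sets of reals, then the continuum hypothesis fails.
-/

namespace Pool.Agent.Results.MP_7b70e8_gt.ImplicationRefutesCH

open Pool.Agent.Helper185.Sel

/-- If every nonempty set of reals with Split(Ω, T) has Split(T, Γ), then the continuum hypothesis
fails. -/
theorem result :
    (∀ X : Set ℝ, X.Nonempty → SplitP (OmegaOf (OpenFam X)) (TauOf (OpenFam X)) →
      SplitP (TauOf (OpenFam X)) (GammaOf (OpenFam X))) →
      Cardinal.aleph 1 ≠ Cardinal.continuum.{0} := by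
  intro h hCH
  obtain ⟨X, h0, h1, h2⟩ := Pool.Agent.Helper185.Blk.exists_real hCH
  exact h2 (Pool.Agent.Helper185.Blk.split_choose (h X h0 h1))

end Pool.Agent.Results.MP_7b70e8_gt.ImplicationRefutesCH
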