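import Pool.Agent.Helper185.BlkFinal

/-!
Split(Ω, T) without Split(T, Γ), from the continuum hypothesis.
-/

namespace Pool.Agent.Results.MP_7b70e8_gt.SplitOmegaTauCH

open Pool.Agent.Helper185.Sel

/-- The continuum hypothesis gives a nonempty set of reals that satisfies Split(Ω, T) but not
Split(T, Γ); moreover some open τ-cover of it contains no γ-cover. -/
theorem result : Cardinal.aleph 1 = Cardinal.continuum.{0} →
    ∃ X : Set ℝ, X.Nonempty ∧ SplitP (OmegaOf (OpenFam X)) (TauOf (OpenFam X)) ∧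
      ¬ SplitP (TauOf (OpenFam X)) (GammaOf (OpenFam X)) ∧
      ¬ Choose (TauOf (OpenFam X)) (GammaOf (OpenFam X)) := by
  intro hCH
  obtain ⟨X, h0, h1, h2⟩ := Pool.Agent.Helper185.Blk.exists_real hCH
  exact ⟨X, h0, h1, fun h => h2 (Pool.Agent.Helper185.Blk.split_choose h), h2⟩

end Pool.Agent.Results.MP_7b70e8_gt.SplitOmegaTauCH
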